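import Pool.Agent.H36.ENR.Stmts2

/-!
# Row GP3 of the board enr
-/

set_option autoImplicit false

namespace Pool.ENR

open Pool.Agent.H81.ENG Pool.Agent.H55.NEU

theorem gp3_thm (hCEN : CENStmt) (hCYT : CYTStmt) (hCYN : CYNStmt) (hNSP : NSPStmt)
    (hPCA : PCAStmt) (hLTE : LTEStmt) (hBRG : BRGStmt) : GP3Stmt := by
  intro F _ _ p r f _ _ _ hp2 hpr hf hq h4 hdvd σ N m hN hm
  have hp : p.Prime := Fact.out
  have hq0 : Nat.card F + 1 ≠ 0 := Nat.succ_ne_zero _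
  obtain ⟨a, ha, hna⟩ : ∃ a, p ^ a ∣ Nat.card F + 1 ∧ ¬ p ^ (a + 1) ∣ Nat.card F + 1 :=
    ⟨(Nat.card F + 1).factorization p, Nat.ordProj_dvd _ _,
      Nat.pow_succ_factorization_not_dvd hq0 hp⟩
  have ha1 : 1 ≤ a := by
    rcases Nat.eq_zero_or_pos a with h | h
    · exfalso
      apply hna
      rw [h, zero_add, pow_one]
      exact hdvd
    · exact h
  obtain ⟨t, n, -, hs, hn⟩ := hNSP F p r f a hq hp2 hpr ha1 ha
  have hcard := hPCA F p r f a hq hp2 hpr ha1 ha hna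
  set s : PS F := pr (mk2 0 (-1) 1 t (by ring)) with hsdef
  -- the order of the field part
  have hfN : (fld σ) ^ (p ^ N) = 1 := by
    rw [← map_pow, hN, map_one]
  obtain ⟨j, hjN, hj⟩ := (Nat.dvd_prime_pow hp).1 (orderOf_dvd_of_pow_eq_one hfN)
  have hja : j ≤ a := hLTE F p a j (fld σ) hp hp2 hj hdvd hna
  -- inner
  have hodd : Odd (p ^ N) := (hp.odd_of_ne_two hp2).pow
  have h1 : fld (σ ^ (p ^ j)) = 1 := by
    rw [map_pow, ← hj, pow_orderOf_eq_one]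
  have h2 : (σ ^ (p ^ j)) ^ (p ^ N) = 1 := by
    rw [← pow_mul, mul_comm, pow_mul, hN, one_pow]
  obtain ⟨h, hh'⟩ := inner_of_odd h1 hodd h2
  have hfin : Finite (PS F) := inferInstance
  have h3 : σ ^ (p ^ a) = 1 :=
    hCYN (PS F) p a N j σ s n h (fun g hg => hCEN F g hg) hp hp2 ha1 hs hcard hn hN hja hh'.symm
  have hma : m < a := by
    by_contra hcon
    rw [not_lt] at hcon
    apply hm
    obtain ⟨c, hc⟩ := pow_dvd_pow p hcon
    rw [hc, pow_mul, h3, one_pow]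
  refine Or.inr (Or.inl ?_)
  obtain ⟨t', ht'⟩ := hCYT (PS F) p a N σ s n hp hp2 ha1 hs hcard hn hN
  refine ⟨t', a, hma, ht', fun d hd => ?_⟩
  have h5 := hBRG F p r f a d hq h4 hp2 hpr ha1 ha hd
  exact (pow_dvd_pow p hma).trans (h5.trans (dvd_ed d))

end Pool.ENR
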